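import Pool.Agent.helper54.UG.Spec2

/-!
# Project ug, row KAD: norm and adjugate in a division algebra
-/

set_option autoImplicit false

namespace Pool.Agent.UG

open Matrix Pool.Agent.H48SL

theorem KAD : KAD_stmt := by
  intro D _ _ _
  let b := Module.finBasis ℚ D
  let L : D →ₐ[ℚ] Matrix (Fin (Module.finrank ℚ D)) (Fin (Module.finrank ℚ D)) ℚ :=
    Algebra.leftMulMatrix b
  refine ⟨fun x => b.equivFun.symm ((L x).adjugate *ᵥ b.equivFun 1), fun x => (L x).det,
    ?_, ?_, ?_, ?_⟩
  · intro x
    apply b.repr.injective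
    apply DFunLike.ext'
    have h1 := Algebra.leftMulMatrix_mulVec_repr b x
      (b.equivFun.symm ((L x).adjugate *ᵥ b.equivFun 1))
    rw [← h1]
    have h2 : (b.repr (b.equivFun.symm ((L x).adjugate *ᵥ b.equivFun 1)) :
        Fin (Module.finrank ℚ D) → ℚ) = (L x).adjugate *ᵥ b.equivFun 1 := by
      have := b.equivFun.apply_symm_apply ((L x).adjugate *ᵥ b.equivFun 1)
      exact this
    rw [h2]
    have h3 : Algebra.leftMulMatrix b x = L x := rfl
    rw [h3, Matrix.mulVec_mulVec, Matrix.mul_adjugate, Matrix.smul_mulVec, Matrix.one_mulVec,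
      Algebra.algebraMap_eq_smul_one, map_smul]
    rfl
  · simp only
    rw [map_one, Matrix.adjugate_one, Matrix.one_mulVec, LinearEquiv.symm_apply_apply]
  · simp only
    rw [map_one, Matrix.det_one]
  · intro m ℓ
    let M : Matrix (Fin (Module.finrank ℚ D)) (Fin (Module.finrank ℚ D)) (MvPolynomial (Fin m) ℚ) :=
      Matrix.of fun i j => ∑ k, MvPolynomial.C (L (ℓ (Pi.single k 1)) i j) * MvPolynomial.X k
    have hM : ∀ u : Fin m → ℚ, (MvPolynomial.eval u).mapMatrix M = L (ℓ u) := by
      intro u
      have h1 : ℓ u = ∑ k, u k • ℓ (Pi.single k 1) := by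
        conv_lhs => rw [LinearMap.pi_apply_eq_sum_univ ℓ u]
        refine Finset.sum_congr rfl fun k _ => ?_
        congr 2
        ext j
        rw [Pi.single_apply]
        simp only [eq_comm]
      ext i j
      rw [h1, map_sum, Matrix.sum_apply]
      simp only [RingHom.mapMatrix_apply, Matrix.map_apply, M, Matrix.of_apply, map_sum, map_mul,
        MvPolynomial.eval_C, MvPolynomial.eval_X]
      refine Finset.sum_congr rfl fun k _ => ?_
      rw [map_smul, Matrix.smul_apply, smul_eq_mul, mul_comm]
    refine ⟨⟨M.det, fun u => ?_⟩, fun μ => ⟨∑ i, ∑ j, M.adjugate i j *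
      MvPolynomial.C (b.equivFun 1 j) * MvPolynomial.C (μ (b i)), fun u => ?_⟩⟩
    · simp only
      rw [← hM u, RingHom.map_det]
    · simp only
      rw [b.equivFun_symm_apply, map_sum, map_sum]
      refine Finset.sum_congr rfl fun i _ => ?_
      rw [map_smul, smul_eq_mul, Matrix.mulVec, dotProduct, Finset.sum_mul, map_sum]
      refine Finset.sum_congr rfl fun j _ => ?_
      rw [map_mul, map_mul, MvPolynomial.eval_C, MvPolynomial.eval_C]
      congr 2
      rw [← hM u, ← RingHom.map_adjugate]
      rfl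

end Pool.Agent.UG
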